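import Pool.Agent.H446R2.BrunD

set_option autoImplicit false

namespace Pool.Agent.H352R3.Complete

open Finset Filter

lemma card_primeFactors_le {a B : ℕ} (ha : a ≠ 0) (h : a < 2 ^ B) : a.primeFactors.card ≤ B := by
  have h1 : 2 ^ a.primeFactors.card ≤ a := by
    calc 2 ^ a.primeFactors.card = ∏ _p ∈ a.primeFactors, 2 := by simp
      _ ≤ ∏ p ∈ a.primeFactors, p :=
          prod_le_prod' (fun p hp => (Nat.prime_of_mem_primeFactors hp).two_le)
      _ ≤ a := Nat.le_of_dvd (Nat.pos_of_ne_zero ha) (Nat.prod_primeFactors_dvd a)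
  have h2 : 2 ^ a.primeFactors.card < 2 ^ B := lt_of_le_of_lt h1 h
  exact ((Nat.pow_lt_pow_iff_right (by norm_num)).1 h2).le

/-- A set of primes meeting every integer of an interval of length `k` has at least about
`k ^ (1/248)` elements. -/
lemma exists_avoid (S : Finset ℕ) (hS : ∀ p ∈ S, p.Prime) (s : ℕ) (hs : S.card ≤ s)
    (hbig : 2 ^ 128 < s) (m k : ℕ) (hk : s ^ 248 ≤ k) :
    ∃ n ∈ Ioc m (m + k), ∀ p ∈ S, ¬ p ∣ n := by
  classical
  have hex : ∃ I : ℕ, s ≤ 2 ^ 2 ^ (I - 1) := by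
    refine ⟨s + 1, ?_⟩
    rw [Nat.add_sub_cancel]
    exact (Nat.lt_two_pow_self.le).trans (Nat.pow_le_pow_right (by norm_num) Nat.lt_two_pow_self.le)
  have hI := Nat.find_spec hex
  set I := Nat.find hex with hIdef
  have hI8 : 9 ≤ I := by
    by_contra hcon
    push Not at hcon
    have h1 : 2 ^ 2 ^ (I - 1) ≤ 2 ^ 128 := by
      apply Nat.pow_le_pow_right (by norm_num)
      calc 2 ^ (I - 1) ≤ 2 ^ 7 := Nat.pow_le_pow_right (by norm_num) (by omega)
        _ = 128 := by norm_num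
    omega
  have hmin : 2 ^ 2 ^ (I - 1 - 1) < s := by
    have := Nat.find_min hex (m := I - 1) (by omega)
    omega
  have hlt : 2 ^ (62 * 2 ^ I) < k := by
    calc 2 ^ (62 * 2 ^ I) = (2 ^ 2 ^ (I - 1 - 1)) ^ 248 := by
          rw [← pow_mul]
          congr 1
          have : I = (I - 1 - 1) + 2 := by omega
          conv_lhs => rw [this, pow_add]
          ring
      _ < s ^ 248 := Nat.pow_lt_pow_left hmin (by norm_num)
      _ ≤ k := hk
  exact Pool.Agent.H446R2.cover S hS I (by omega) (hs.trans hI) m k hlt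

lemma eventually_params (c : ℝ) (hc : 500 ≤ c) (N : ℕ) : ∀ᶠ m : ℕ in atTop,
    ∃ s : ℕ, 2 ^ 128 < s ∧ s ^ 248 ≤ ⌊(Real.log (m : ℝ)) ^ c⌋₊ ∧
      ∃ B : ℕ, m + ⌊(Real.log (m : ℝ)) ^ c⌋₊ < 2 ^ B ∧ N * B ≤ s := by
  have hlog : Tendsto (fun m : ℕ => Real.log (m : ℝ)) atTop atTop :=
    Real.tendsto_log_atTop.comp tendsto_natCast_atTop_atTop
  have h1 : ∀ᶠ m : ℕ in atTop, (Real.log (m : ℝ)) ^ c ≤ m := by
    have h := (isLittleO_log_rpow_rpow_atTop c (zero_lt_one' ℝ)).bound (zero_lt_one' ℝ)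
    have h' := tendsto_natCast_atTop_atTop.eventually h
    filter_upwards [h', hlog.eventually_ge_atTop 0, eventually_ge_atTop 1] with m hm h0 hm1
    rw [Real.rpow_one, one_mul, Real.norm_of_nonneg (Real.rpow_nonneg h0 _),
      Real.norm_of_nonneg (Nat.cast_nonneg _)] at hm
    exact hm
  filter_upwards [h1, hlog.eventually_ge_atTop (2 ^ 128 + 4 * N + 10), eventually_ge_atTop 1]
    with m hm hL hm1
  set L := Real.log (m : ℝ) with hLdef
  have hL10 : (10 : ℝ) ≤ L := by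
    have : (0 : ℝ) ≤ N := Nat.cast_nonneg N
    nlinarith
  have hN0 : (0 : ℝ) ≤ N := Nat.cast_nonneg N
  set s : ℕ := ⌊L ^ 2⌋₊ with hs
  have hs_le : (s : ℝ) ≤ L ^ 2 := Nat.floor_le (by positivity)
  have hs_ge : L ^ 2 < s + 1 := Nat.lt_floor_add_one _
  refine ⟨s, ?_, ?_, Nat.log 2 (2 * m) + 1, ?_, ?_⟩
  · have h2 : ((2 ^ 128 : ℕ) : ℝ) < s := by
      push_cast
      nlinarith
    exact_mod_cast h2
  · apply Nat.le_floor
    push_cast
    calc ((s : ℝ)) ^ 248 ≤ (L ^ 2) ^ 248 := pow_le_pow_left₀ (Nat.cast_nonneg _) hs_le 248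
      _ = L ^ (496 : ℝ) := by
          rw [← pow_mul]; norm_num
      _ ≤ L ^ c := Real.rpow_le_rpow_of_exponent_le (by linarith) (by linarith)
  · have h3 : m + ⌊L ^ c⌋₊ ≤ 2 * m := by
      have : ⌊L ^ c⌋₊ ≤ m := Nat.floor_le_of_le hm
      omega
    exact lt_of_le_of_lt h3 (Nat.lt_pow_succ_log_self (by norm_num) _)
  · have h4 : ((Nat.log 2 (2 * m) : ℕ) : ℝ) ≤ 2 * L + 2 := by
      have h5 : ((Nat.log 2 (2 * m) : ℕ) : ℝ) ≤ Real.logb 2 ((2 * m : ℕ) : ℝ) :=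
        Real.natLog_le_logb _ _
      refine h5.trans ?_
      rw [Real.logb, div_le_iff₀ (Real.log_pos (by norm_num))]
      push_cast
      rw [Real.log_mul (by norm_num) (by positivity)]
      have h6 := Real.log_two_gt_d9
      rw [← hLdef]
      nlinarith
    have h7 : ((N * (Nat.log 2 (2 * m) + 1) : ℕ) : ℝ) ≤ s := by
      push_cast
      have h8 : (N : ℝ) * ((Nat.log 2 (2 * m) : ℕ) + 1) ≤ N * (2 * L + 3) := by
        apply mul_le_mul_of_nonneg_left _ hN0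
        linarith
      have h9 : (N : ℝ) * (2 * L + 3) ≤ L ^ 2 - 1 := by
        have h10 : (N : ℝ) ≤ L / 4 - 2 := by linarith
        have h11 : (N : ℝ) * (2 * L + 3) ≤ (L / 4 - 2) * (2 * L + 3) :=
          mul_le_mul_of_nonneg_right h10 (by linarith)
        nlinarith
      linarith
    exact_mod_cast h7

theorem main : ∀ c : ℝ, (500 : ℝ) ≤ c → ∀ N : ℕ, ∃ M : ℕ, ∀ m : ℕ, M ≤ m →
      ∀ A : Finset ℕ,
        A ⊆ Finset.Ioc m (m + ⌊(Real.log (m : ℝ)) ^ c⌋₊) →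
        (∀ n ∈ Finset.Ioc m (m + ⌊(Real.log (m : ℝ)) ^ c⌋₊),
            n ∉ A → ∃ a ∈ A, ¬ Nat.Coprime a n) →
        N ≤ A.card := by
  classical
  intro c hc N
  obtain ⟨M, hM⟩ := eventually_atTop.1 (eventually_params c hc N)
  refine ⟨max M 1, fun m hm A hA hcomp => ?_⟩
  obtain ⟨s, hs1, hs2, B, hB, hNB⟩ := hM m ((le_max_left _ _).trans hm)
  have hm1 : 1 ≤ m := (le_max_right _ _).trans hm
  by_contra hcon
  push Not at hcon
  set k := ⌊(Real.log (m : ℝ)) ^ c⌋₊ with hk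
  set S := A.biUnion Nat.primeFactors with hS
  have hSp : ∀ p ∈ S, p.Prime := by
    intro p hp
    rw [hS, mem_biUnion] at hp
    obtain ⟨a, _, hpa⟩ := hp
    exact Nat.prime_of_mem_primeFactors hpa
  have hAne : ∀ a ∈ A, a ≠ 0 ∧ a < 2 ^ B := by
    intro a ha
    have := mem_Ioc.1 (hA ha)
    omega
  have hcard : S.card ≤ s := by
    calc S.card ≤ ∑ a ∈ A, a.primeFactors.card := card_biUnion_le
      _ ≤ ∑ _a ∈ A, B := sum_le_sum fun a ha => card_primeFactors_le (hAne a ha).1 (hAne a ha).2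
      _ = A.card * B := by rw [sum_const, smul_eq_mul]
      _ ≤ N * B := Nat.mul_le_mul_right _ hcon.le
      _ ≤ s := hNB
  obtain ⟨n, hn, hnS⟩ := exists_avoid S hSp s hcard hs1 m k hs2
  by_cases hnA : n ∈ A
  · have hn1 : n ≠ 1 := by
      have := mem_Ioc.1 hn
      omega
    obtain ⟨p, hp, hpn⟩ := Nat.exists_prime_and_dvd hn1
    exact hnS p (mem_biUnion.2 ⟨n, hnA, Nat.mem_primeFactors.2 ⟨hp, hpn, (hAne n hnA).1⟩⟩) hpn
  · obtain ⟨a, ha, hcop⟩ := hcomp n hn hnA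
    obtain ⟨p, hp, hpa, hpn⟩ := Nat.Prime.not_coprime_iff_dvd.1 hcop
    exact hnS p (mem_biUnion.2 ⟨a, ha, Nat.mem_primeFactors.2 ⟨hp, hpa, (hAne a ha).1⟩⟩) hpn

end Pool.Agent.H352R3.Complete
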